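import Pool.Agent.R350.GW

/-!
# The `p`-adic strong four exponentials conjecture: the first rows of the counterexamples form a
family of bounded dimension

Let `LogForms` be the space of all linear combinations, with algebraic coefficients, of `1` and of
`p`-adic logarithms of algebraic numbers, and let `W` be a subspace of finite dimension.  A pair `r` is
called a first row if there is a pair `s` of ARBITRARY elements of `LogForms` such that the matrix with
the rows `r`, `s` is a counterexample to the conjecture: it is singular and has linearly independent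
rows and linearly independent columns.

1. The first rows with entries in `W` lie in an algebraic subset of `W ^ 2` of dimension at most `10`:
   any `11` linear forms satisfy a nontrivial polynomial relation on the set of the first rows.
2. Their entries lie in an algebraic subset of `W` of dimension at most `8`.
3. Let `l_1, …, l_6` be linearly independent elements of `LogForms`.  There is a hypersurface in the
   space of the `2 × 6` matrices `b` of algebraic numbers such that for all `b` outside of it the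
   pair `(b_11 l_1 + ⋯ + b_16 l_6, b_21 l_1 + ⋯ + b_26 l_6)` is not a first row.
4. If `l_1, …, l_9` in `W` are linearly independent, there is a hypersurface such that for all `b`
   outside of it and all `w` in `W` the pair `(b_1 l_1 + ⋯ + b_9 l_9, w)` is not a first row.

The starting result `CounterexampleDimension` concerns the matrices with both rows in the finite
dimensional space `W`.
-/

set_option autoImplicit false

namespace Pool.Agent.Results.MP_dd0d16_nt.FirstRowDimension

open Module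

/-- `L` is the Iwasawa `p`-adic logarithm on the algebraic closure of `ℚ_p`. -/
def IsIwasawaLog (p : ℕ) [Fact p.Prime] (L : PadicAlgCl p → PadicAlgCl p) : Prop :=
  (∀ x y : PadicAlgCl p, x ≠ 0 → y ≠ 0 → L (x * y) = L x + L y) ∧
  L ((p : ℕ) : PadicAlgCl p) = 0 ∧
  ∀ z : PadicAlgCl p, ‖z‖ < 1 →
    HasSum (fun n : ℕ => (-1 : PadicAlgCl p) ^ n * z ^ (n + 1) / ((n : PadicAlgCl p) + 1))
      (L (1 + z))

/-- The linear forms in `1` and the logarithms `L α` of nonzero algebraic numbers `α`, with algebraic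
coefficients. -/
noncomputable def LogForms {p : ℕ} [Fact p.Prime] (L : PadicAlgCl p → PadicAlgCl p) :
    Submodule (algebraicClosure ℚ (PadicAlgCl p)) (PadicAlgCl p) :=
  Submodule.span (algebraicClosure ℚ (PadicAlgCl p))
    ({1} ∪ {z | ∃ α : PadicAlgCl p, α ≠ 0 ∧ IsAlgebraic ℚ α ∧ z = L α})

/-- There is a pair `s` of elements of `LogForms` such that the matrix with the rows `r` and `s` is
singular and has linearly independent rows and linearly independent columns (over the algebraic
numbers). -/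
def IsFirstRow {p : ℕ} [Fact p.Prime] (L : PadicAlgCl p → PadicAlgCl p)
    (r : Fin 2 → PadicAlgCl p) : Prop :=
  ∃ s : Fin 2 → PadicAlgCl p, (∀ j, s j ∈ LogForms L) ∧ r 0 * s 1 = r 1 * s 0 ∧
    LinearIndependent (algebraicClosure ℚ (PadicAlgCl p)) ![r, s] ∧
      LinearIndependent (algebraicClosure ℚ (PadicAlgCl p))
        (fun j : Fin 2 => (![r j, s j] : Fin 2 → PadicAlgCl p))

theorem badRow_of {p : ℕ} [Fact p.Prime] (L : PadicAlgCl p → PadicAlgCl p)
    (r : Fin 2 → PadicAlgCl p) (h : IsFirstRow L r) :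
    Pool.Agent.R350.BadRow (Pool.Agent.W254.PA.LtE (Pool.Agent.W254.PA.logs L)) (r 0) (r 1) := by
  obtain ⟨s, hs, h1, h2, h3⟩ := h
  exact ⟨s 0, hs 0, s 1, hs 1, (Pool.Agent.R350.ctr_iff r s).2 ⟨h1, h2, h3⟩⟩

/-- **Main result.** -/
theorem result (p : ℕ) [Fact p.Prime] (L : PadicAlgCl p → PadicAlgCl p) (hL : IsIwasawaLog p L)
    (W : Submodule (algebraicClosure ℚ (PadicAlgCl p)) (PadicAlgCl p))
    [FiniteDimensional (algebraicClosure ℚ (PadicAlgCl p)) W] (hW : W ≤ LogForms L) :
    (∀ φ : Fin 11 → ((Fin 2 → W) →ₗ[algebraicClosure ℚ (PadicAlgCl p)]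
        algebraicClosure ℚ (PadicAlgCl p)),
      ∃ P : MvPolynomial (Fin 11) (algebraicClosure ℚ (PadicAlgCl p)), P ≠ 0 ∧
        ∀ r : Fin 2 → W, IsFirstRow L (fun j => (r j : PadicAlgCl p)) →
          MvPolynomial.eval (fun k => φ k r) P = 0) ∧
    (∀ φ : Fin 9 → (W →ₗ[algebraicClosure ℚ (PadicAlgCl p)] algebraicClosure ℚ (PadicAlgCl p)),
      ∃ P : MvPolynomial (Fin 9) (algebraicClosure ℚ (PadicAlgCl p)), P ≠ 0 ∧
        ∀ r : Fin 2 → W, IsFirstRow L (fun j => (r j : PadicAlgCl p)) →
          ∀ j, MvPolynomial.eval (fun k => φ k (r j)) P = 0) ∧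
    (∀ l : Fin 6 → PadicAlgCl p, (∀ k, l k ∈ LogForms L) →
      LinearIndependent (algebraicClosure ℚ (PadicAlgCl p)) l →
      ∃ Δ : MvPolynomial (Fin 2 × Fin 6) (algebraicClosure ℚ (PadicAlgCl p)), Δ ≠ 0 ∧
        ∀ b : Fin 2 × Fin 6 → algebraicClosure ℚ (PadicAlgCl p), MvPolynomial.eval b Δ ≠ 0 →
          ¬ IsFirstRow L fun i => ∑ k, (b (i, k) : PadicAlgCl p) * l k) ∧
    ∀ l : Fin 9 → W, LinearIndependent (algebraicClosure ℚ (PadicAlgCl p)) l →
      ∃ Δ : MvPolynomial (Fin 9) (algebraicClosure ℚ (PadicAlgCl p)), Δ ≠ 0 ∧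
        ∀ b : Fin 9 → algebraicClosure ℚ (PadicAlgCl p), MvPolynomial.eval b Δ ≠ 0 →
          ∀ w ∈ W, ¬ IsFirstRow L ![∑ k, (b k : PadicAlgCl p) * l k, w] := by
  have hL' : Pool.Agent.W245.PB.IsIwasawaLog p L := ⟨hL.1, hL.2.1, hL.2.2⟩
  have hHyp := Pool.Agent.Y787.hypC_padic hL'
  refine ⟨fun φ => ?_, fun φ => ?_, fun l hlL hl => ?_, fun l hl => ?_⟩
  · obtain ⟨P, h1, h2⟩ := Pool.Agent.R350.row_dim
      (Lt := Pool.Agent.W254.PA.LtE (Pool.Agent.W254.PA.logs L)) W hW φ
    exact ⟨P, h1, fun r hr => h2 r (badRow_of L _ hr)⟩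
  · obtain ⟨P, h1, h2⟩ := Pool.Agent.R350.entry_dim
      (Lt := Pool.Agent.W254.PA.LtE (Pool.Agent.W254.PA.logs L)) W hW φ
    exact ⟨P, h1, fun r hr => h2 r (badRow_of L _ hr)⟩
  · obtain ⟨P, h1, h2⟩ := Pool.Agent.R350.row_generic
      (Lt := Pool.Agent.W254.PA.LtE (Pool.Agent.W254.PA.logs L)) l hlL hl
    exact ⟨P, h1, fun b hb hr => h2 b hb (badRow_of L _ hr)⟩
  · obtain ⟨P, h1, h2⟩ := Pool.Agent.R350.entry_generic
      (Lt := Pool.Agent.W254.PA.LtE (Pool.Agent.W254.PA.logs L)) W hW l hl
    exact ⟨P, h1, fun b hb w hw hr => h2 b hb w hw (badRow_of L _ hr)⟩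

end Pool.Agent.Results.MP_dd0d16_nt.FirstRowDimension
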