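import Mathlib
import Pool.Agent.R350.GU

/-!
# The `p`-adic strong four exponentials conjecture: generic first row, arbitrary second row

Let `ℚ̄` be the field of algebraic numbers in the algebraic closure of `ℚ_p` and `LogForms` the space of
all linear combinations, with algebraic coefficients, of `1` and of all values of the Iwasawa logarithm
at algebraic numbers.  Let `V` be a `ℚ̄`-space of dimension at most `m` of arbitrary elements.  We say
that `y_1, …, y_k` is a generic row over `V` if `V' = V + ℚ̄ y_1 + ⋯ + ℚ̄ y_k` has dimension `dim V + k`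
and every `2 × 2` matrix with first row in `V'` and not in `V`, ARBITRARY second row in `LogForms + V`
and with linearly independent rows and columns is regular.

The logarithms of all but `C (log log x) ^ C / log x * x ^ k` of the `k`-tuples of positive integers up
to `x` are a generic row over `V`; the constant `C` depends only on `k` and `m`, and not on `p`.
-/

set_option autoImplicit false

namespace Pool.Agent.Results.MP_dd0d16_nt.GenericRow

open Module

/-- `L` is the Iwasawa `p`-adic logarithm on the algebraic closure of `ℚ_p`. -/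
def IsIwasawaLog (p : ℕ) [Fact p.Prime] (L : PadicAlgCl p → PadicAlgCl p) : Prop :=
  (∀ x y : PadicAlgCl p, x ≠ 0 → y ≠ 0 → L (x * y) = L x + L y) ∧
  L ((p : ℕ) : PadicAlgCl p) = 0 ∧
  ∀ z : PadicAlgCl p, ‖z‖ < 1 →
    HasSum (fun n : ℕ => (-1 : PadicAlgCl p) ^ n * z ^ (n + 1) / ((n : PadicAlgCl p) + 1))
      (L (1 + z))

/-- The linear forms in `1` and the logarithms `L α` of nonzero algebraic numbers `α`, with algebraic
coefficients. -/
noncomputable def LogForms {p : ℕ} [Fact p.Prime] (L : PadicAlgCl p → PadicAlgCl p) :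
    Submodule (algebraicClosure ℚ (PadicAlgCl p)) (PadicAlgCl p) :=
  Submodule.span (algebraicClosure ℚ (PadicAlgCl p))
    ({1} ∪ {z | ∃ α : PadicAlgCl p, α ≠ 0 ∧ IsAlgebraic ℚ α ∧ z = L α})

/-- the strong four exponentials conjecture holds for all matrices with first row in
`V + ℚ̄ y_1 + ⋯ + ℚ̄ y_k` and not in `V`, and arbitrary second row in `LogForms + V` -/
def IsGenericRow {p : ℕ} [Fact p.Prime] (L : PadicAlgCl p → PadicAlgCl p)
    (V : Submodule (algebraicClosure ℚ (PadicAlgCl p)) (PadicAlgCl p)) {k : ℕ}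
    (y : Fin k → PadicAlgCl p) : Prop :=
  finrank (algebraicClosure ℚ (PadicAlgCl p))
      (V ⊔ Submodule.span (algebraicClosure ℚ (PadicAlgCl p)) (Set.range y) :
        Submodule (algebraicClosure ℚ (PadicAlgCl p)) (PadicAlgCl p)) =
      finrank (algebraicClosure ℚ (PadicAlgCl p)) V + k ∧
  ∀ M : Matrix (Fin 2) (Fin 2) (PadicAlgCl p),
    (∀ j, M 0 j ∈ V ⊔ Submodule.span (algebraicClosure ℚ (PadicAlgCl p)) (Set.range y)) →
    (∀ j, M 1 j ∈ LogForms L ⊔ V) →
    (∃ j, M 0 j ∉ V) →
    LinearIndependent (algebraicClosure ℚ (PadicAlgCl p))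
      (fun i : Fin 2 => fun j : Fin 2 => M i j) →
    LinearIndependent (algebraicClosure ℚ (PadicAlgCl p))
      (fun j : Fin 2 => fun i : Fin 2 => M i j) →
    M.det ≠ 0

theorem genericRow_of_good2f {p : ℕ} [Fact p.Prime] (L : PadicAlgCl p → PadicAlgCl p)
    (V : Submodule (algebraicClosure ℚ (PadicAlgCl p)) (PadicAlgCl p)) {k : ℕ}
    (y : Fin k → PadicAlgCl p)
    (h : Pool.Agent.R350.Good2f V (Pool.Agent.W254.PA.LtE (Pool.Agent.W254.PA.logs L)) y) :
    IsGenericRow L V y := by
  refine ⟨h.1, fun M hM0 hM1 hV hrow hcol hdet => ?_⟩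
  have hdet' : M 0 0 * M 1 1 = M 0 1 * M 1 0 := by
    rw [Matrix.det_fin_two] at hdet
    linear_combination hdet
  have hM1' : ∀ j, M 1 j ∈ Pool.Agent.W254.PA.LtE (Pool.Agent.W254.PA.logs L) ⊔
      Submodule.span (algebraicClosure ℚ (PadicAlgCl p)) (V : Set (PadicAlgCl p)) := by
    intro j
    rw [Submodule.span_eq]
    exact hM1 j
  rcases h.2 (fun j => M 0 j) (fun j => M 1 j) hM0 hM1' hdet'
    (Pool.Agent.R350.row_li M hdet' hrow hcol) with ⟨ρ, hρ⟩ | h
  · have h1 := Fintype.linearIndependent_iff.1 hrow ![ρ, -1] (by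
      rw [Fin.sum_univ_two]
      funext j
      simp only [Matrix.cons_val_zero, Matrix.cons_val_one, Pi.add_apply, Pi.smul_apply,
        Pi.zero_apply]
      rw [hρ j, neg_smul, one_smul]
      ring) 1
    simp at h1
  · obtain ⟨j, hj⟩ := hV
    exact hj (h j)

open Classical in
/-- **Main result.** -/
theorem result (m k : ℕ) :
    ∃ C : ℕ, ∀ x : ℕ, 16 ≤ x → ∀ (p : ℕ) [Fact p.Prime] (L : PadicAlgCl p → PadicAlgCl p),
      IsIwasawaLog p L →
      ∀ V : Submodule (algebraicClosure ℚ (PadicAlgCl p)) (PadicAlgCl p),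
      Module.Finite (algebraicClosure ℚ (PadicAlgCl p)) V →
      finrank (algebraicClosure ℚ (PadicAlgCl p)) V ≤ m →
      (((Fintype.piFinset fun _ : Fin k => Finset.Icc 1 x).filter fun a =>
        ¬ IsGenericRow L V (fun i => L (a i : PadicAlgCl p))).card : ℝ) ≤
        C * Real.log (Real.log x) ^ C / Real.log x * (x : ℝ) ^ k := by
  obtain ⟨C, hC⟩ := Pool.Agent.R350.rate_two k m 0
  refine ⟨C, fun x hx p _ L hL V hVf hVm => ?_⟩
  have hL' : Pool.Agent.W245.PB.IsIwasawaLog p L := ⟨hL.1, hL.2.1, hL.2.2⟩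
  refine hC x hx (algebraicClosure ℚ (PadicAlgCl p)) (algebraicClosure ℚ (PadicAlgCl p))
    (PadicAlgCl p) (fun n : ℕ => L (n : PadicAlgCl p)) _ (Pool.Agent.R350.setup_padic hL') V hVf
    hVm _ (fun a ha => (Finset.mem_filter.1 ha).1) ?_
  intro a ha hgood
  exact (Finset.mem_filter.1 ha).2 (genericRow_of_good2f L V _ hgood)

end Pool.Agent.Results.MP_dd0d16_nt.GenericRow
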