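import Pool.Agent.R351.GD.PX

/-!
# `p`-adic strong four exponentials for almost all tuples of integers, over number fields of growing degree

For all `k`, `q` there is a number `C` such that for all primes `p`, all `δ`, arbitrary numbers `w_1, …, w_q` in the
algebraic closure of `ℚ_p` and all `T ≥ 1`, all but `C p T ^ (k - (δ + 2) ^ (-C))` of the `k`-tuples of positive integers
`n_i ≤ T` have the following property, with `l_i = log_p n_i`: for every number field `K` of degree at most `δ`, with
`V = K w_1 + ⋯ + K w_q`, the `l_i` are `K`-linearly independent modulo `V`, and every `2 × 2` matrix with entries in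
`V + K l_1 + ⋯ + K l_k`, not all in `V`, whose rows are `K`-linearly independent and whose columns are `K`-linearly
independent is nonsingular. The exceptional tuples do not depend on `K`, and the degree of the field may grow like a fixed
power of `log T`: for `δ ≤ (log T) ^ (1 / (2 C)) - 2` there are at most `C p T ^ k exp (- (log T) ^ (1 / 2))` exceptional
tuples.

The proof: `p`-adic windows for relations of growing degree (`Pool.Agent.R351.GD.pint_tuples`, which follows the starting
library of helper916, helper921 and others with polynomial bounds at every step), and helper921's deduction of four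
exponentials from the absence of quadratic relations (`Pool.Agent.Y921.FE`, `Pool.Agent.Y921.PX`).
-/

set_option autoImplicit false

namespace Pool.Agent.Results.MP_dd0d16_nt.GrowingFieldDegrees

open Module

/-- `L` is the Iwasawa `p`-adic logarithm on the algebraic closure of `ℚ_p`. -/
def IsIwasawaLog (p : ℕ) [Fact p.Prime] (L : PadicAlgCl p → PadicAlgCl p) : Prop :=
  (∀ x y : PadicAlgCl p, x ≠ 0 → y ≠ 0 → L (x * y) = L x + L y) ∧
  L ((p : ℕ) : PadicAlgCl p) = 0 ∧
  ∀ z : PadicAlgCl p, ‖z‖ < 1 →
    HasSum (fun n : ℕ => (-1 : PadicAlgCl p) ^ n * z ^ (n + 1) / ((n : PadicAlgCl p) + 1))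
      (L (1 + z))

/-- The `l i` are linearly independent modulo `V`, and every `2 × 2` matrix over `V + span l` which has an entry
outside `V`, `K`-linearly independent rows and `K`-linearly independent columns has determinant `≠ 0`. -/
def StrongFour {K A : Type} [Field K] [Field A] [Algebra K A] (V : Submodule K A) {k : ℕ} (l : Fin k → A) : Prop :=
  finrank K (V ⊔ Submodule.span K (Set.range l) : Submodule K A) = finrank K V + k ∧
    ∀ M : Matrix (Fin 2) (Fin 2) A, (∀ i j, M i j ∈ V ⊔ Submodule.span K (Set.range l)) → (∃ i j, M i j ∉ V) →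
      LinearIndependent K (fun i : Fin 2 => fun j : Fin 2 => M i j) →
      LinearIndependent K (fun j : Fin 2 => fun i : Fin 2 => M i j) → M.det ≠ 0

/-- For all `k`, `q` there is `C` such that for all `p`, `δ`, all `w_1, …, w_q` and all `T ≥ 1` there are at most
`C p T ^ (k - 1 / (δ + 2) ^ C)` tuples of integers `1 ≤ n_i ≤ T` for which `StrongFour` fails for some number field `K` of
degree at most `δ` and `V = K w_1 + ⋯ + K w_q`. -/
theorem result (k q : ℕ) : ∃ C : ℕ, ∀ (p : ℕ) [Fact p.Prime] (L : PadicAlgCl p → PadicAlgCl p), IsIwasawaLog p L →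
    ∀ (δ : ℕ) (w : Fin q → PadicAlgCl p) (T : ℕ), 1 ≤ T →
    ∃ B : Finset (Fin k → ℕ), (B.card : ℝ) ≤ C * p * (T : ℝ) ^ ((k : ℝ) - 1 / ((δ : ℝ) + 2) ^ C) ∧
      ∀ n : Fin k → ℕ, (∀ i, 1 ≤ n i ∧ n i ≤ T) → n ∉ B →
      ∀ K : IntermediateField ℚ (PadicAlgCl p), FiniteDimensional ℚ K → finrank ℚ K ≤ δ →
        StrongFour (Submodule.span K (Set.range w)) (fun i => L (n i : PadicAlgCl p)) := by
  classical
  obtain ⟨C, h⟩ := Pool.Agent.R351.GD.pint_tuples k q
  refine ⟨2 * C, fun p _ L hL δ w T hT => ?_⟩
  have h1 := h (δ + 2) p (PadicAlgCl p) L ⟨hL.1, hL.2.1, hL.2.2⟩ w T hT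
  refine ⟨_, h1.trans ?_, fun n hn hnB K hK hKd => ?_⟩
  · have hT1 : (1 : ℝ) ≤ T := by exact_mod_cast hT
    have hδ0 : (0 : ℝ) ≤ δ := Nat.cast_nonneg δ
    have h2 : (((δ + 2 : ℕ) : ℝ) + 2) ^ C ≤ ((δ : ℝ) + 2) ^ (2 * C) := by
      rw [pow_mul]
      refine pow_le_pow_left₀ (by positivity) ?_ _
      push_cast
      nlinarith
    have h3 := one_div_le_one_div_of_le (by positivity) h2
    refine mul_le_mul ?_ (Real.rpow_le_rpow_of_exponent_le hT1 (by linarith)) (by positivity) (by positivity)
    refine mul_le_mul_of_nonneg_right ?_ (Nat.cast_nonneg _)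
    push_cast
    linarith [(Nat.cast_nonneg C : (0 : ℝ) ≤ C)]
  · have hg := Pool.Agent.R351.GD.good_of_bad (δ := δ) w (fun i => L (n i : PadicAlgCl p)) (fun hbad =>
      hnB (Finset.mem_filter.2 ⟨Fintype.mem_piFinset.2 fun i => Finset.mem_Icc.2 (hn i), hbad⟩)) K hK hKd
    exact ⟨by simpa using hg.1, fun M hM hne hrow hcol => hg.det_ne_zero M hM hne hrow hcol⟩

end Pool.Agent.Results.MP_dd0d16_nt.GrowingFieldDegrees
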