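import Mathlib
import Pool.Agent.R350.GU

/-!
# The `p`-adic strong four exponentials conjecture: sums of three logarithms in the first row

Let `ℚ̄` be the field of algebraic numbers in the algebraic closure of `ℚ_p` and `LogForms` the space of
all linear combinations, with algebraic coefficients, of `1` and of all values of the Iwasawa logarithm
at algebraic numbers.  Let `V` be a `ℚ̄`-space of dimension at most `m` of arbitrary elements.  We say
that `y_1, …, y_k` is a generic row over `V` if `V' = V + ℚ̄ y_1 + ⋯ + ℚ̄ y_k` has dimension `dim V + k`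
and every `2 × 2` matrix with first row in `V'` and not in `V`, ARBITRARY second row in `LogForms + V`
and with linearly independent rows and columns is regular.

For ARBITRARY `ℚ`-linearly independent `p`-adic logarithms `λ_1, …, λ_N` of algebraic numbers and
nonzero algebraic numbers `c (i, j)` the sums of three terms
`y_i = c (i, 1) λ_{f (i, 1)} + c (i, 2) λ_{f (i, 2)} + c (i, 3) λ_{f (i, 3)}`
are a generic row over `V` for all but `C N ^ (3 k - δ)` of the `N ^ (3 k)` functions `f`.  The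
constants `C` and `δ > 0` depend only on `k` and `m`, and not on `p`.
-/

set_option autoImplicit false

namespace Pool.Agent.Results.MP_dd0d16_nt.SumsOfThreeLogs

open Module

/-- `L` is the Iwasawa `p`-adic logarithm on the algebraic closure of `ℚ_p`. -/
def IsIwasawaLog (p : ℕ) [Fact p.Prime] (L : PadicAlgCl p → PadicAlgCl p) : Prop :=
  (∀ x y : PadicAlgCl p, x ≠ 0 → y ≠ 0 → L (x * y) = L x + L y) ∧
  L ((p : ℕ) : PadicAlgCl p) = 0 ∧
  ∀ z : PadicAlgCl p, ‖z‖ < 1 →
    HasSum (fun n : ℕ => (-1 : PadicAlgCl p) ^ n * z ^ (n + 1) / ((n : PadicAlgCl p) + 1))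
      (L (1 + z))

/-- The linear forms in `1` and the logarithms `L α` of nonzero algebraic numbers `α`, with algebraic
coefficients. -/
noncomputable def LogForms {p : ℕ} [Fact p.Prime] (L : PadicAlgCl p → PadicAlgCl p) :
    Submodule (algebraicClosure ℚ (PadicAlgCl p)) (PadicAlgCl p) :=
  Submodule.span (algebraicClosure ℚ (PadicAlgCl p))
    ({1} ∪ {z | ∃ α : PadicAlgCl p, α ≠ 0 ∧ IsAlgebraic ℚ α ∧ z = L α})

/-- the strong four exponentials conjecture holds for all matrices with first row in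
`V + ℚ̄ y_1 + ⋯ + ℚ̄ y_k` and not in `V`, and arbitrary second row in `LogForms + V` -/
def IsGenericRow {p : ℕ} [Fact p.Prime] (L : PadicAlgCl p → PadicAlgCl p)
    (V : Submodule (algebraicClosure ℚ (PadicAlgCl p)) (PadicAlgCl p)) {k : ℕ}
    (y : Fin k → PadicAlgCl p) : Prop :=
  finrank (algebraicClosure ℚ (PadicAlgCl p))
      (V ⊔ Submodule.span (algebraicClosure ℚ (PadicAlgCl p)) (Set.range y) :
        Submodule (algebraicClosure ℚ (PadicAlgCl p)) (PadicAlgCl p)) =
      finrank (algebraicClosure ℚ (PadicAlgCl p)) V + k ∧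
  ∀ M : Matrix (Fin 2) (Fin 2) (PadicAlgCl p),
    (∀ j, M 0 j ∈ V ⊔ Submodule.span (algebraicClosure ℚ (PadicAlgCl p)) (Set.range y)) →
    (∀ j, M 1 j ∈ LogForms L ⊔ V) →
    (∃ j, M 0 j ∉ V) →
    LinearIndependent (algebraicClosure ℚ (PadicAlgCl p))
      (fun i : Fin 2 => fun j : Fin 2 => M i j) →
    LinearIndependent (algebraicClosure ℚ (PadicAlgCl p))
      (fun j : Fin 2 => fun i : Fin 2 => M i j) →
    M.det ≠ 0

theorem genericRow_of_good2f {p : ℕ} [Fact p.Prime] (L : PadicAlgCl p → PadicAlgCl p)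
    (V : Submodule (algebraicClosure ℚ (PadicAlgCl p)) (PadicAlgCl p)) {k : ℕ}
    (y : Fin k → PadicAlgCl p)
    (h : Pool.Agent.R350.Good2f V (Pool.Agent.W254.PA.LtE (Pool.Agent.W254.PA.logs L)) y) :
    IsGenericRow L V y := by
  refine ⟨h.1, fun M hM0 hM1 hV hrow hcol hdet => ?_⟩
  have hdet' : M 0 0 * M 1 1 = M 0 1 * M 1 0 := by
    rw [Matrix.det_fin_two] at hdet
    linear_combination hdet
  have hM1' : ∀ j, M 1 j ∈ Pool.Agent.W254.PA.LtE (Pool.Agent.W254.PA.logs L) ⊔
      Submodule.span (algebraicClosure ℚ (PadicAlgCl p)) (V : Set (PadicAlgCl p)) := by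
    intro j
    rw [Submodule.span_eq]
    exact hM1 j
  rcases h.2 (fun j => M 0 j) (fun j => M 1 j) hM0 hM1' hdet'
    (Pool.Agent.R350.row_li M hdet' hrow hcol) with ⟨ρ, hρ⟩ | h
  · have h1 := Fintype.linearIndependent_iff.1 hrow ![ρ, -1] (by
      rw [Fin.sum_univ_two]
      funext j
      simp only [Matrix.cons_val_zero, Matrix.cons_val_one, Pi.add_apply, Pi.smul_apply,
        Pi.zero_apply]
      rw [hρ j, neg_smul, one_smul]
      ring) 1
    simp at h1
  · obtain ⟨j, hj⟩ := hV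
    exact hj (h j)

open Classical in
/-- **Main result.** -/
theorem result (m k : ℕ) :
    ∃ δ : ℝ, 0 < δ ∧ ∃ C : ℝ, ∀ (p : ℕ) [Fact p.Prime] (L : PadicAlgCl p → PadicAlgCl p),
      IsIwasawaLog p L →
      ∀ V : Submodule (algebraicClosure ℚ (PadicAlgCl p)) (PadicAlgCl p),
      Module.Finite (algebraicClosure ℚ (PadicAlgCl p)) V →
      finrank (algebraicClosure ℚ (PadicAlgCl p)) V ≤ m →
      ∀ (N : ℕ) (l : Fin N → PadicAlgCl p),
      (∀ i, ∃ α : PadicAlgCl p, α ≠ 0 ∧ IsAlgebraic ℚ α ∧ l i = L α) →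
      LinearIndependent ℚ l →
      ∀ c : Fin k → Fin 3 → algebraicClosure ℚ (PadicAlgCl p), (∀ i j, c i j ≠ 0) →
      ((Finset.univ.filter fun f : Fin k → Fin 3 → Fin N =>
        ¬ IsGenericRow L V (fun i => ∑ j, c i j • l (f i j))).card : ℝ) ≤
        C * (N : ℝ) ^ (((k * 3 : ℕ) : ℝ) - δ) := by
  obtain ⟨δ, hδ, K', hK', h⟩ := Pool.Agent.R350.few_two k m 0
  refine ⟨δ, hδ, K', fun p _ L hL V hVf hVm N l hl hli c hc =>
    Pool.Agent.R350.npow_final hδ hK' ?_⟩
  have hL' : Pool.Agent.W245.PB.IsIwasawaLog p L := ⟨hL.1, hL.2.1, hL.2.2⟩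
  have hS := Pool.Agent.R350.setup_padic hL'
  refine h (algebraicClosure ℚ (PadicAlgCl p)) (algebraicClosure ℚ (PadicAlgCl p))
    (PadicAlgCl p) (Pool.Agent.W254.PA.LtE (Pool.Agent.W254.PA.logs L)) hS.hyp hS.one V hVf hVm
    0 (fun _ => Submodule.zero_mem _) N l (fun i => Pool.Agent.Y787.log_mem (hl i))
    (Pool.Agent.R350.li_padic hL' l hl hli) c hc _ ?_
  intro f hf hgood
  apply (Finset.mem_filter.1 hf).2
  have he : (fun a => (0 : Fin k → PadicAlgCl p) a + ∑ j, c a j • l (f a j)) =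
      fun i => ∑ j, c i j • l (f i j) := by
    funext i
    rw [Pi.zero_apply, zero_add]
  rw [he] at hgood
  exact genericRow_of_good2f L V _ hgood

end Pool.Agent.Results.MP_dd0d16_nt.SumsOfThreeLogs
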